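import Pool.Agent.helper43.Vis3.Clear2

/-!
MP_6b3417_co (frozen S09315), part III.9: a clear unit square (module III-g), final statement.
-/

set_option autoImplicit false

namespace Pool.Agent.helper43.Clear

open Pool.Agent.helper47.Vis

/-- the conclusion. -/
def Concl (G : Set (ℤ × ℤ)) (y : ℝ × ℝ) : Prop :=
  ∃ w : ℤ × ℤ, (∀ ε₁ ε₂ : ℤ, (ε₁ = 0 ∨ ε₁ = 1) → (ε₂ = 0 ∨ ε₂ = 1) → (w.1 + ε₁, w.2 + ε₂) ∈ G) ∧
    ∀ ε₁ ε₂ ε₁' ε₂' : ℤ, (ε₁ = 0 ∨ ε₁ = 1) → (ε₂ = 0 ∨ ε₂ = 1) → (ε₁' = 0 ∨ ε₁' = 1) →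
      (ε₂' = 0 ∨ ε₂' = 1) → ∀ lam : ℝ, 0 < lam →
      toR (w.1 + ε₁', w.2 + ε₂') + lam • (toR (w.1 + ε₁, w.2 + ε₂) - y) ∉ toR '' G

theorem cs_below {M R K : ℕ} (hp : Par M R K) (G : Set (ℤ × ℤ)) (hfin : G.Finite)
    (hW : Box M ⊆ G) (hfill : ∀ z ∈ G, ∀ f, InS M z (3 / 4) (3 * R) f → f ∈ G)
    (hh : ∀ z ∈ G, |(z.1 : ℝ)| ≤ 2 ^ K + M ∨ |(z.2 : ℝ)| ≤ 2 ^ K + M) (y : ℝ × ℝ)
    (hy : y.2 < 0) : Concl G y := by
  obtain ⟨hR6, hMR, hBM, hsv⟩ := par_facts hp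
  have hM6 : 6000 ≤ M := by omega
  have hM6' : (6000 : ℝ) ≤ M := by exact_mod_cast hM6
  have hRM' : 1000 * (R : ℝ) ≤ M := by exact_mod_cast hMR
  have hR6' : (6 : ℝ) ≤ R := by exact_mod_cast hR6
  have hSfin : {z ∈ G | InGam M y (toR z)}.Finite := hfin.subset (fun z hz => hz.1)
  have h0M : ((0, (M : ℤ)) : ℤ × ℤ) ∈ {z ∈ G | InGam M y (toR z)} := by
    refine ⟨hW ?_, inGam_sq ?_ ?_ ?_ ?_⟩
    · exact ⟨le_rfl, by simp only; omega, by simp only; omega, le_rfl⟩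
    · simp
    · simp
    · simp
    · simp
  obtain ⟨t, ⟨htG, htΓ⟩, htmax⟩ := Set.exists_max_image _ (fun z : ℤ × ℤ => z.2) hSfin ⟨_, h0M⟩
  have hMT : (M : ℤ) ≤ t.2 := htmax _ h0M
  have hT0 : (6000 : ℝ) ≤ t.2 := by
    have : (6000 : ℤ) ≤ t.2 := by omega
    exact_mod_cast this
  set a : ℤ := ⌈(3 / 4 : ℝ) * t.1⌉ + 3 * R with ha
  set b : ℤ := ⌈(3 / 4 : ℝ) * t.2⌉ + 3 * R with hb
  have a1 : (3 / 4 : ℝ) * t.1 + 3 * R ≤ a := by
    rw [ha]; push_cast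
    linarith [Int.le_ceil ((3 / 4 : ℝ) * t.1)]
  have a2 : (a : ℝ) ≤ (3 / 4 : ℝ) * t.1 + 3 * R + 1 := by
    rw [ha]; push_cast
    linarith [Int.ceil_lt_add_one ((3 / 4 : ℝ) * t.1)]
  have b1 : (3 / 4 : ℝ) * t.2 + 3 * R ≤ b := by
    rw [hb]; push_cast
    linarith [Int.le_ceil ((3 / 4 : ℝ) * t.2)]
  have b2 : (b : ℝ) ≤ (3 / 4 : ℝ) * t.2 + 3 * R + 1 := by
    rw [hb]; push_cast
    linarith [Int.ceil_lt_add_one ((3 / 4 : ℝ) * t.2)]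
  have hb3 : 3 * t.2 ≤ 4 * b := by
    have : 3 * (t.2 : ℝ) ≤ 4 * b := by linarith
    exact_mod_cast this
  have hIn : ∀ i j : ℤ, a ≤ i → i ≤ a + 3 * R → b ≤ j → j ≤ b + 3 * R →
      InS M t (3 / 4) (3 * R) (i, j) := by
    intro i j h1 h2 h3 h4
    have h1' : (a : ℝ) ≤ i := by exact_mod_cast h1
    have h2' : (i : ℝ) ≤ a + 3 * R := by exact_mod_cast h2
    have h3' : (b : ℝ) ≤ j := by exact_mod_cast h3
    have h4' : (j : ℝ) ≤ b + 3 * R := by exact_mod_cast h4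
    refine ⟨?_, ?_, ?_, ?_⟩ <;> simp only <;> linarith
  have hG' : ∀ i j : ℤ, a ≤ i → i ≤ a + 3 * R → b ≤ j → j ≤ b + 3 * R → (i, j) ∈ G :=
    fun i j h1 h2 h3 h4 => hfill t htG _ (hIn i j h1 h2 h3 h4)
  have hΓ' : ∀ i j : ℤ, a ≤ i → i ≤ a + 3 * R → b ≤ j → j ≤ b + 3 * R →
      InGam M y (toR (i, j)) := by
    intro i j h1 h2 h3 h4
    obtain ⟨s1, s2, s3, s4⟩ := hIn i j h1 h2 h3 h4
    simp only at s1 s2 s3 s4
    refine inGam_add (q := toR t) (q' := (4 * (i : ℝ) - 3 * t.1, 4 * (j : ℝ) - 3 * t.2)) htΓ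
      (inGam_sq ?_ ?_ ?_ ?_) (α := 3 / 4) (β := 1 / 4) (by norm_num) (by norm_num) (by norm_num)
      ?_ ?_
    · simp only; linarith
    · simp only; linarith
    · simp only; linarith
    · simp only; linarith
    · simp only [toR_fst]; ring
    · simp only [toR_snd]; ring
  obtain ⟨w, ⟨w1, w2, w3, w4⟩, hw⟩ : ∃ w : ℤ × ℤ,
      (a ≤ w.1 ∧ w.1 + 1 ≤ a + 3 * R ∧ b ≤ w.2 ∧ w.2 + 1 ≤ b + 3 * R) ∧
      ∀ ε₁ ε₂ : ℤ, (ε₁ = 0 ∨ ε₁ = 1) → (ε₂ = 0 ∨ ε₂ = 1) →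
        Clr y t.2 (w.1 + ε₁, w.2 + ε₂) := by
    rcases le_or_gt ((t.2 : ℤ) : ℝ) (10 * ((2 : ℝ) ^ K + M)) with hT | hT
    · obtain ⟨w, ⟨w1, w2, w3, w4⟩, hw⟩ := caseA hp hy hMT hT a b hb3
      exact ⟨w, ⟨w1, by omega, w3, by omega⟩, hw⟩
    · have ht1 : |(t.1 : ℝ)| ≤ 2 ^ K + M := by
        rcases hh t htG with h | h
        · exact h
        · exfalso
          have h2 := le_abs_self (t.2 : ℝ)
          have h3 : (0 : ℝ) < 2 ^ K := by positivity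
          linarith
      obtain ⟨w, ⟨w1, w2, w3, w4⟩, hw⟩ := caseB hp hy hT ht1 a b (by linarith) (by linarith) hb3 hΓ'
      exact ⟨w, ⟨w1, by omega, w3, by omega⟩, hw⟩
  refine ⟨w, ?_, ?_⟩
  · intro ε₁ ε₂ h1 h2
    apply hG'
    · rcases h1 with rfl | rfl <;> omega
    · rcases h1 with rfl | rfl <;> omega
    · rcases h2 with rfl | rfl <;> omega
    · rcases h2 with rfl | rfl <;> omega
  · rintro ε₁ ε₂ ε₁' ε₂' h1 h2 h1' h2' lam hlam ⟨g, hg, hge⟩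
    have g1 : (g.1 : ℝ) = ((w.1 + ε₁' : ℤ) : ℝ) + lam * (((w.1 + ε₁ : ℤ) : ℝ) - y.1) := by
      have := congrArg Prod.fst hge
      simpa using this
    have g2 : (g.2 : ℝ) = ((w.2 + ε₂' : ℤ) : ℝ) + lam * (((w.2 + ε₂ : ℤ) : ℝ) - y.2) := by
      have := congrArg Prod.snd hge
      simpa using this
    have hclr := hw ε₁ ε₂ h1 h2 (g.1 - (w.1 + ε₁'), g.2 - (w.2 + ε₂')) lam ⟨hlam, by
      simp only
      push_cast at g1 ⊢
      linarith, by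
      simp only
      push_cast at g2 ⊢
      linarith⟩
    simp only at hclr
    have hgΓ : InGam M y (toR g) := by
      refine inGam_add (q := toR (w.1 + ε₁, w.2 + ε₂)) (q' := toR (w.1 + ε₁', w.2 + ε₂'))
        (hΓ' _ _ ?_ ?_ ?_ ?_) (hΓ' _ _ ?_ ?_ ?_ ?_) (α := lam) (β := 1) hlam.le (by norm_num)
        (by linarith) ?_ ?_
      · rcases h1 with rfl | rfl <;> omega
      · rcases h1 with rfl | rfl <;> omega
      · rcases h2 with rfl | rfl <;> omega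
      · rcases h2 with rfl | rfl <;> omega
      · rcases h1' with rfl | rfl <;> omega
      · rcases h1' with rfl | rfl <;> omega
      · rcases h2' with rfl | rfl <;> omega
      · rcases h2' with rfl | rfl <;> omega
      · simp only [toR_fst]; rw [g1]; ring
      · simp only [toR_snd]; rw [g2]; ring
    have hmax : g.2 ≤ t.2 := htmax g ⟨hg, hgΓ⟩
    rcases h2' with rfl | rfl <;> omega

/-- the reflection `(p.1, M - p.2)`. -/
lemma concl_refl (M : ℤ) (G : Set (ℤ × ℤ)) (y : ℝ × ℝ)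
    (h : Concl {p : ℤ × ℤ | (p.1, M - p.2) ∈ G} (y.1, M - y.2)) : Concl G y := by
  obtain ⟨w, h1, h2⟩ := h
  refine ⟨(w.1, M - w.2 - 1), ?_, ?_⟩
  · intro ε₁ ε₂ e1 e2
    have := h1 ε₁ (1 - ε₂) e1 (by rcases e2 with rfl | rfl <;> simp)
    simp only [Set.mem_ofPred_eq] at this
    have e : M - (w.2 + (1 - ε₂)) = M - w.2 - 1 + ε₂ := by ring
    rw [e] at this
    exact this
  · rintro ε₁ ε₂ ε₁' ε₂' e1 e2 e1' e2' lam hlam ⟨g, hg, hge⟩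
    apply h2 ε₁ (1 - ε₂) ε₁' (1 - ε₂') e1 (by rcases e2 with rfl | rfl <;> simp) e1'
      (by rcases e2' with rfl | rfl <;> simp) lam hlam
    refine ⟨(g.1, M - g.2), by simpa using hg, ?_⟩
    have g1 := congrArg Prod.fst hge
    have g2 := congrArg Prod.snd hge
    simp only [toR, Prod.fst_add, Prod.smul_fst, Prod.fst_sub, smul_eq_mul, Prod.snd_add,
      Prod.smul_snd, Prod.snd_sub] at g1 g2
    push_cast at g1 g2
    ext
    · simp only [toR, Prod.fst_add, Prod.smul_fst, Prod.fst_sub, smul_eq_mul]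
      push_cast
      linarith
    · simp only [toR, Prod.snd_add, Prod.smul_snd, Prod.snd_sub, smul_eq_mul]
      push_cast
      linarith

/-- the swap. -/
lemma concl_swap (G : Set (ℤ × ℤ)) (y : ℝ × ℝ)
    (h : Concl {p : ℤ × ℤ | (p.2, p.1) ∈ G} (y.2, y.1)) : Concl G y := by
  obtain ⟨w, h1, h2⟩ := h
  refine ⟨(w.2, w.1), ?_, ?_⟩
  · intro ε₁ ε₂ e1 e2
    have := h1 ε₂ ε₁ e2 e1
    simpa using this
  · rintro ε₁ ε₂ ε₁' ε₂' e1 e2 e1' e2' lam hlam ⟨g, hg, hge⟩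
    apply h2 ε₂ ε₁ ε₂' ε₁' e2 e1 e2' e1' lam hlam
    refine ⟨(g.2, g.1), by simpa using hg, ?_⟩
    have g1 := congrArg Prod.fst hge
    have g2 := congrArg Prod.snd hge
    simp only [toR, Prod.fst_add, Prod.smul_fst, Prod.fst_sub, smul_eq_mul, Prod.snd_add,
      Prod.smul_snd, Prod.snd_sub] at g1 g2
    ext
    · simp only [toR, Prod.fst_add, Prod.smul_fst, Prod.fst_sub, smul_eq_mul]
      exact g2
    · simp only [toR, Prod.snd_add, Prod.smul_snd, Prod.snd_sub, smul_eq_mul]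
      exact g1

/-- below or above. -/
theorem cs_vert {M R K : ℕ} (hp : Par M R K) (G : Set (ℤ × ℤ)) (hfin : G.Finite)
    (hW : Box M ⊆ G) (hfill : ∀ z ∈ G, ∀ f, InS M z (3 / 4) (3 * R) f → f ∈ G)
    (hh : ∀ z ∈ G, |(z.1 : ℝ)| ≤ 2 ^ K ∨ |(z.2 : ℝ)| ≤ 2 ^ K) (y : ℝ × ℝ)
    (hy : y.2 < 0 ∨ M < y.2) : Concl G y := by
  rcases hy with hy | hy
  · apply cs_below hp G hfin hW hfill _ y hy
    intro z hz
    have : (0 : ℝ) ≤ M := by positivity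
    rcases hh z hz with h | h
    · left; linarith
    · right; linarith
  · apply concl_refl M
    apply cs_below hp _ _ _ _ _ _ (by simpa using hy)
    · have : {p : ℤ × ℤ | (p.1, (M : ℤ) - p.2) ∈ G} = (fun p : ℤ × ℤ => (p.1, (M : ℤ) - p.2)) ⁻¹' G :=
        rfl
      rw [this]
      apply hfin.preimage
      intro p _ q _ hpq
      simp only [Prod.mk.injEq] at hpq
      exact Prod.ext hpq.1 (by linarith [hpq.2])
    · rintro p ⟨p1, p2, p3, p4⟩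
      exact hW ⟨p1, p2, by simp only; linarith, by simp only; linarith⟩
    · intro z hz f hf
      obtain ⟨f1, f2, f3, f4⟩ := hf
      apply hfill _ hz
      refine ⟨f1, f2, ?_, ?_⟩
      · simp only; push_cast; linarith
      · simp only; push_cast; linarith
    · intro z hz
      have hz' := hh _ hz
      simp only at hz'
      push_cast at hz'
      rcases hz' with h | h
      · left
        have : (0 : ℝ) ≤ M := by positivity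
        linarith
      · right
        have h3 : (0 : ℝ) ≤ M := by positivity
        rw [abs_le] at h ⊢
        have h4 : (0 : ℝ) < 2 ^ K := by positivity
        constructor <;> linarith [h.1, h.2]

/-- everywhere outside of the square. -/
theorem cs_all {M R K : ℕ} (hp : Par M R K) (G : Set (ℤ × ℤ)) (hfin : G.Finite)
    (hW : Box M ⊆ G) (hfill : ∀ z ∈ G, ∀ f, InS M z (3 / 4) (3 * R) f → f ∈ G)
    (hh : ∀ z ∈ G, |(z.1 : ℝ)| ≤ 2 ^ K ∨ |(z.2 : ℝ)| ≤ 2 ^ K) (y : ℝ × ℝ)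
    (hy : ¬ (0 ≤ y.1 ∧ y.1 ≤ M ∧ 0 ≤ y.2 ∧ y.2 ≤ M)) : Concl G y := by
  by_cases h2 : y.2 < 0 ∨ M < y.2
  · exact cs_vert hp G hfin hW hfill hh y h2
  · apply concl_swap
    apply cs_vert hp
    · have : {p : ℤ × ℤ | (p.2, p.1) ∈ G} = (fun p : ℤ × ℤ => (p.2, p.1)) ⁻¹' G := rfl
      rw [this]
      apply hfin.preimage
      intro p _ q _ hpq
      simp only [Prod.mk.injEq] at hpq
      exact Prod.ext hpq.2 hpq.1
    · rintro p ⟨p1, p2, p3, p4⟩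
      exact hW ⟨p3, p4, p1, p2⟩
    · rintro z hz f ⟨f1, f2, f3, f4⟩
      exact hfill _ hz _ ⟨f3, f4, f1, f2⟩
    · intro z hz
      exact (hh _ hz).symm
    · simp only
      push Not at h2 hy
      by_contra hcon
      push Not at hcon
      exact absurd (hy hcon.1 hcon.2 h2.1) (by linarith [h2.2])

lemma sq_subset (M : ℕ) {y : ℝ × ℝ} (hy : 0 ≤ y.1 ∧ y.1 ≤ M ∧ 0 ≤ y.2 ∧ y.2 ≤ M) :
    y ∈ convexHull ℝ (toR '' Box M) := by
  have h1 : ({0, (M : ℝ)} : Set ℝ) ×ˢ ({0, (M : ℝ)} : Set ℝ) ⊆ toR '' Box M := by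
    rintro ⟨p, q⟩ ⟨hp, hq⟩
    simp only [Set.mem_insert_iff, Set.mem_singleton_iff] at hp hq
    have hM : (0 : ℤ) ≤ (M : ℤ) := by omega
    rcases hp with rfl | rfl <;> rcases hq with rfl | rfl
    · exact ⟨(0, 0), ⟨le_rfl, hM, le_rfl, hM⟩, by simp [toR]⟩
    · exact ⟨(0, M), ⟨le_rfl, hM, hM, le_rfl⟩, by simp [toR]⟩
    · exact ⟨(M, 0), ⟨hM, le_rfl, le_rfl, hM⟩, by simp [toR]⟩
    · exact ⟨(M, M), ⟨hM, le_rfl, hM, le_rfl⟩, by simp [toR]⟩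
  apply convexHull_mono h1
  rw [convexHull_prod, convexHull_pair, segment_eq_Icc (by positivity)]
  exact ⟨⟨hy.1, hy.2.1⟩, ⟨hy.2.2.1, hy.2.2.2⟩⟩

/-- module III-g of the interface, from `fill34`. -/
theorem clear_square_of {M R K : ℕ} (hp : Par M R K) (G : Set (ℤ × ℤ))
    (hfill : ∀ z ∈ G, Handled K (toR z) → ∀ f, InS M z (3 / 4) (3 * R) f → f ∈ G)
    (hfin : G.Finite) (hW : Box M ⊆ G)
    (hh : ∀ z ∈ G, Handled K (toR z)) (y : ℝ × ℝ) (hy : y ∉ convexHull ℝ (toR '' G)) :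
    ∃ w : ℤ × ℤ, (∀ ε₁ ε₂ : ℤ, (ε₁ = 0 ∨ ε₁ = 1) → (ε₂ = 0 ∨ ε₂ = 1) → (w.1 + ε₁, w.2 + ε₂) ∈ G) ∧
      ∀ ε₁ ε₂ ε₁' ε₂' : ℤ, (ε₁ = 0 ∨ ε₁ = 1) → (ε₂ = 0 ∨ ε₂ = 1) → (ε₁' = 0 ∨ ε₁' = 1) →
        (ε₂' = 0 ∨ ε₂' = 1) → ∀ lam : ℝ, 0 < lam →
        toR (w.1 + ε₁', w.2 + ε₂') + lam • (toR (w.1 + ε₁, w.2 + ε₂) - y) ∉ toR '' G := by
  refine cs_all hp G hfin hW (fun z hz f hf => hfill z hz (hh z hz) f hf) hh y ?_
  intro h
  exact hy (convexHull_mono (Set.image_mono hW) (sq_subset M h))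

end Pool.Agent.helper43.Clear
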