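import Pool.Agent.helper47.Vis.Defs

/-!
MP_6b3417_co (frozen S09315), part III.9: a clear unit square (module III-g).
-/

set_option autoImplicit false

namespace Pool.Agent.helper43.Clear

open Pool.Agent.helper47.Vis

lemma mult_form {e v : ℤ × ℤ} {l : ℝ} (hl : 0 < l) (h1 : (e.1 : ℝ) = l * v.1)
    (h2 : (e.2 : ℝ) = l * v.2) (hg : Int.gcd v.1 v.2 = 1 ∨ Int.gcd v.1 v.2 = 2) :
    ∃ k : ℤ, 1 ≤ k ∧ 2 * e.1 = k * v.1 ∧ 2 * e.2 = k * v.2 := by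
  have hg0 : 0 < Int.gcd v.1 v.2 := by rcases hg with h | h <;> omega
  obtain ⟨a1, a2, ha, hv1, hv2⟩ := Int.exists_gcd_one hg0
  set g : ℤ := (Int.gcd v.1 v.2 : ℤ) with hgdef
  have hgpos : 0 < g := by rw [hgdef]; exact_mod_cast hg0
  have hbez := Int.gcd_eq_gcd_ab a1 a2
  rw [ha] at hbez
  set α := Int.gcdA a1 a2
  set β := Int.gcdB a1 a2
  have hb : a1 * α + a2 * β = 1 := by simpa using hbez.symm
  have w1 : (v.1 : ℝ) = a1 * g := by exact_mod_cast hv1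
  have w2 : (v.2 : ℝ) = a2 * g := by exact_mod_cast hv2
  have hcross : e.1 * a2 = e.2 * a1 := by
    have : (e.1 : ℝ) * a2 = e.2 * a1 := by
      rw [h1, h2, w1, w2]; ring
    exact_mod_cast this
  have k1 : e.1 = (α * e.1 + β * e.2) * a1 := by
    linear_combination (-e.1) * hb + β * hcross
  have k2 : e.2 = (α * e.1 + β * e.2) * a2 := by
    linear_combination (-e.2) * hb - α * hcross
  have hk : ((α * e.1 + β * e.2 : ℤ) : ℝ) = l * g := by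
    have hbR : (a1 : ℝ) * α + a2 * β = 1 := by exact_mod_cast hb
    push_cast
    rw [h1, h2, w1, w2]
    linear_combination (l * g) * hbR
  have hk0 : 0 < α * e.1 + β * e.2 := by
    have : (0 : ℝ) < ((α * e.1 + β * e.2 : ℤ) : ℝ) := by
      rw [hk]
      have : (0 : ℝ) < g := by exact_mod_cast hgpos
      positivity
    exact_mod_cast this
  set k := α * e.1 + β * e.2
  rcases hg with h | h
  · have : g = 1 := by rw [hgdef, h]; rfl
    rw [this] at hv1 hv2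
    refine ⟨2 * k, by omega, ?_, ?_⟩
    · rw [hv1, k1]; ring
    · rw [hv2, k2]; ring
  · have : g = 2 := by rw [hgdef, h]; rfl
    rw [this] at hv1 hv2
    refine ⟨k, by omega, ?_, ?_⟩
    · rw [hv1, k1]; ring
    · rw [hv2, k2]; ring

/-- reduced fractions. -/
lemma reduce (d x1 x2 : ℤ) (hd : d ≠ 0) (y : ℝ × ℝ) (h1 : (d : ℝ) * y.1 = x1)
    (h2 : (d : ℝ) * y.2 = x2) :
    ∃ (N : ℤ) (X : ℤ × ℤ), 0 < N ∧ N ≤ |d| ∧ Int.gcd (Int.gcd X.1 X.2) N = 1 ∧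
      (X.1 : ℝ) = N * y.1 ∧ (X.2 : ℝ) = N * y.2 := by
  set g : ℤ := (Int.gcd (Int.gcd x1 x2) d : ℤ) with hg
  have hg0 : 0 < g := by
    have : Int.gcd (Int.gcd x1 x2) d ≠ 0 := by
      intro h
      rw [Int.gcd_eq_zero_iff] at h
      exact hd h.2
    rw [hg]
    exact_mod_cast Nat.pos_of_ne_zero this
  have g12 : g ∣ (Int.gcd x1 x2 : ℤ) := Int.gcd_dvd_left _ _
  obtain ⟨a1, ha1⟩ : g ∣ x1 := g12.trans (Int.gcd_dvd_left _ _)
  obtain ⟨a2, ha2⟩ : g ∣ x2 := g12.trans (Int.gcd_dvd_right _ _)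
  obtain ⟨d', hd'⟩ : g ∣ d := Int.gcd_dvd_right _ _
  have hd0 : d' ≠ 0 := by rintro rfl; simp at hd'; exact hd hd'
  have hcop : ∀ p : ℕ, p.Prime → (p : ℤ) ∣ a1 → (p : ℤ) ∣ a2 → (p : ℤ) ∣ d' → False := by
    intro p hp q1 q2 q3
    have e1 : (p : ℤ) * g ∣ x1 := by rw [ha1, mul_comm]; exact mul_dvd_mul_left g q1
    have e2 : (p : ℤ) * g ∣ x2 := by rw [ha2, mul_comm]; exact mul_dvd_mul_left g q2
    have e3 : (p : ℤ) * g ∣ d := by rw [hd', mul_comm]; exact mul_dvd_mul_left g q3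
    have e4 : (p : ℤ) * g ∣ g := Int.dvd_coe_gcd (Int.dvd_coe_gcd e1 e2) e3
    have e5 : (p : ℤ) * g ∣ 1 * g := by simpa using e4
    have e6 : (p : ℤ) ∣ 1 := Int.dvd_of_mul_dvd_mul_right hg0.ne' e5
    exact (Nat.prime_iff_prime_int.mp hp).not_isUnit (isUnit_of_dvd_one e6)
  have hgR : (g : ℝ) ≠ 0 := by exact_mod_cast hg0.ne'
  have f1 : (d' : ℝ) * y.1 = a1 := by
    rw [hd', ha1] at h1
    push_cast at h1
    have : (g : ℝ) * (d' * y.1) = g * a1 := by linarith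
    exact mul_left_cancel₀ hgR this
  have f2 : (d' : ℝ) * y.2 = a2 := by
    rw [hd', ha2] at h2
    push_cast at h2
    have : (g : ℝ) * (d' * y.2) = g * a2 := by linarith
    exact mul_left_cancel₀ hgR this
  have habs : |d'| ≤ |d| := by
    rw [hd', abs_mul]
    have : 1 ≤ |g| := by rw [abs_of_pos hg0]; omega
    nlinarith [abs_nonneg d']
  rcases lt_or_gt_of_ne hd0 with hneg | hpos
  · refine ⟨-d', (-a1, -a2), by omega, ?_, ?_, ?_, ?_⟩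
    · rw [← abs_of_neg hneg]; exact habs
    · apply gcd_eq_one_of_primes
      intro p hp q1 q2 q3
      exact hcop p hp ((dvd_neg).mp q1) ((dvd_neg).mp q2) ((dvd_neg).mp q3)
    · push_cast; linarith
    · push_cast; linarith
  · refine ⟨d', (a1, a2), hpos, ?_, ?_, ?_, ?_⟩
    · rw [← abs_of_pos hpos]; exact habs
    · exact gcd_eq_one_of_primes _ _ _ hcop
    · linarith
    · linarith

/-- `e` is a lattice vector which is the multiple `l > 0` of `w - y`. -/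
def Dir (y : ℝ × ℝ) (w e : ℤ × ℤ) (l : ℝ) : Prop :=
  0 < l ∧ (e.1 : ℝ) = l * (w.1 - y.1) ∧ (e.2 : ℝ) = l * (w.2 - y.2)

lemma rat_form {y : ℝ × ℝ} {w w' e e' : ℤ × ℤ} {l l' : ℝ} (h : Dir y w e l) (h' : Dir y w' e' l')
    (hd : e.1 * e'.2 - e.2 * e'.1 ≠ 0) :
    ∃ (N : ℤ) (X : ℤ × ℤ), 0 < N ∧ N ≤ |e.1 * e'.2 - e.2 * e'.1| ∧
      Int.gcd (Int.gcd X.1 X.2) N = 1 ∧ (X.1 : ℝ) = N * y.1 ∧ (X.2 : ℝ) = N * y.2 := by
  obtain ⟨hl, h1, h2⟩ := h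
  obtain ⟨hl', h3, h4⟩ := h'
  have p : (e.1 : ℝ) * y.2 - e.2 * y.1 = e.1 * w.2 - e.2 * w.1 := by rw [h1, h2]; ring
  have p' : (e'.1 : ℝ) * y.2 - e'.2 * y.1 = e'.1 * w'.2 - e'.2 * w'.1 := by rw [h3, h4]; ring
  refine reduce (e.1 * e'.2 - e.2 * e'.1)
    ((e.1 * w.2 - e.2 * w.1) * e'.1 - (e'.1 * w'.2 - e'.2 * w'.1) * e.1)
    ((e.1 * w.2 - e.2 * w.1) * e'.2 - (e'.1 * w'.2 - e'.2 * w'.1) * e.2) hd y ?_ ?_
  · push_cast
    rw [← p, ← p']; ring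
  · push_cast
    rw [← p, ← p']; ring

/-- `c` is clear. -/
def Clr (y : ℝ × ℝ) (T : ℤ) (c : ℤ × ℤ) : Prop :=
  ∀ (e : ℤ × ℤ) (l : ℝ), Dir y c e l → T < 4 * e.2

lemma clr_of_gcd {y : ℝ × ℝ} (hy : y.2 < 0) {T N : ℤ} {X c : ℤ × ℤ} (hN : 0 < N)
    (h1 : (X.1 : ℝ) = N * y.1) (h2 : (X.2 : ℝ) = N * y.2)
    (hg : Int.gcd (X.1 - N * c.1) (X.2 - N * c.2) = 1 ∨
      Int.gcd (X.1 - N * c.1) (X.2 - N * c.2) = 2) (hT : 0 < T) (hc : 3 * T ≤ 4 * c.2) :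
    Clr y T c := by
  rintro e l ⟨hl, e1, e2⟩
  have hNR : (0 : ℝ) < N := by exact_mod_cast hN
  have hg' : Int.gcd (N * c.1 - X.1) (N * c.2 - X.2) = 1 ∨
      Int.gcd (N * c.1 - X.1) (N * c.2 - X.2) = 2 := by
    have : Int.gcd (N * c.1 - X.1) (N * c.2 - X.2) = Int.gcd (X.1 - N * c.1) (X.2 - N * c.2) := by
      rw [← Int.gcd_neg, ← Int.neg_gcd]
      congr 1 <;> ring
    rw [this]; exact hg
  obtain ⟨k, hk, -, hk2⟩ := mult_form (e := e) (v := (N * c.1 - X.1, N * c.2 - X.2)) (l := l / N)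
    (by positivity) (by
      simp only
      push_cast
      rw [e1, h1]
      field_simp) (by
      simp only
      push_cast
      rw [e2, h2]
      field_simp) hg'
  simp only at hk2
  have hv : c.2 ≤ N * c.2 - X.2 := by
    have hX : X.2 < 0 := by
      have : (X.2 : ℝ) < 0 := by rw [h2]; nlinarith
      exact_mod_cast this
    have : 0 ≤ c.2 := by omega
    nlinarith
  have hc0 : 0 < c.2 := by omega
  have : N * c.2 - X.2 ≤ 2 * e.2 := by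
    rw [hk2]
    nlinarith
  omega

/-- combinatorics of two lines with at most one bad point each. -/
lemma two_lines (A B : ℤ → Prop) (hA : ∀ i j : ℤ, 0 ≤ i → i < j → j ≤ 5 → A i → A j → False)
    (hB : ∀ i j : ℤ, 0 ≤ i → i < j → j ≤ 5 → B i → B j → False) :
    ∃ k : ℤ, 0 ≤ k ∧ k ≤ 4 ∧ ¬ A k ∧ ¬ A (k + 1) ∧ ¬ B k ∧ ¬ B (k + 1) := by
  by_contra hcon
  have c : ∀ k : ℤ, 0 ≤ k → k ≤ 4 → (A k ∨ A (k + 1)) ∨ (B k ∨ B (k + 1)) := by
    intro k h0 h4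
    by_contra h
    simp only [not_or] at h
    exact hcon ⟨k, h0, h4, h.1.1, h.1.2, h.2.1, h.2.2⟩
  have key : ∀ C : ℤ → Prop, (∀ i j : ℤ, 0 ≤ i → i < j → j ≤ 5 → C i → C j → False) →
      ∀ i j : ℤ, 0 ≤ i → i + 2 ≤ j → j ≤ 4 → (C i ∨ C (i + 1)) → (C j ∨ C (j + 1)) → False := by
    intro C hC i j h0 hij hj hi hj'
    rcases hi with h1 | h1 <;> rcases hj' with h2 | h2
    · exact hC _ _ (by omega) (by omega) (by omega) h1 h2
    · exact hC _ _ (by omega) (by omega) (by omega) h1 h2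
    · exact hC _ _ (by omega) (by omega) (by omega) h1 h2
    · exact hC _ _ (by omega) (by omega) (by omega) h1 h2
  have kA := key A hA
  have kB := key B hB
  rcases c 0 (by norm_num) (by norm_num) with c0 | c0
  · rcases c 2 (by norm_num) (by norm_num) with c2 | c2
    · exact kA 0 2 (by norm_num) (by norm_num) (by norm_num) c0 c2
    · rcases c 4 (by norm_num) (by norm_num) with c4 | c4
      · exact kA 0 4 (by norm_num) (by norm_num) (by norm_num) c0 c4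
      · exact kB 2 4 (by norm_num) (by norm_num) (by norm_num) c2 c4
  · rcases c 2 (by norm_num) (by norm_num) with c2 | c2
    · rcases c 4 (by norm_num) (by norm_num) with c4 | c4
      · exact kA 2 4 (by norm_num) (by norm_num) (by norm_num) c2 c4
      · exact kB 0 4 (by norm_num) (by norm_num) (by norm_num) c0 c4
    · exact kB 0 2 (by norm_num) (by norm_num) (by norm_num) c0 c2

/-- the union of the rays away from `y` starting at points of the square `[0,M]²`. -/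
def InGam (M : ℕ) (y : ℝ × ℝ) (q : ℝ × ℝ) : Prop :=
  ∃ (c : ℝ × ℝ) (S : ℝ), 0 ≤ c.1 ∧ c.1 ≤ M ∧ 0 ≤ c.2 ∧ c.2 ≤ M ∧ 1 ≤ S ∧
    q.1 = y.1 + S * (c.1 - y.1) ∧ q.2 = y.2 + S * (c.2 - y.2)

lemma inGam_add {M : ℕ} {y q q' : ℝ × ℝ} (hq : InGam M y q) (hq' : InGam M y q') {α β : ℝ}
    (hα : 0 ≤ α) (hβ : 0 ≤ β) (h : 1 ≤ α + β) {r : ℝ × ℝ}
    (hr1 : r.1 = y.1 + α * (q.1 - y.1) + β * (q'.1 - y.1))
    (hr2 : r.2 = y.2 + α * (q.2 - y.2) + β * (q'.2 - y.2)) : InGam M y r := by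
  obtain ⟨c, S, h1, h2, h3, h4, h5, h6, h7⟩ := hq
  obtain ⟨c', S', h1', h2', h3', h4', h5', h6', h7'⟩ := hq'
  have hS : 1 ≤ α * S + β * S' := by nlinarith
  have hS0 : 0 < α * S + β * S' := by linarith
  have a1 : 0 ≤ α * S := by positivity
  have a2 : 0 ≤ β * S' := by positivity
  refine ⟨((α * S * c.1 + β * S' * c'.1) / (α * S + β * S'),
    (α * S * c.2 + β * S' * c'.2) / (α * S + β * S')), α * S + β * S', ?_, ?_, ?_, ?_, hS, ?_, ?_⟩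
  · simp only; positivity
  · simp only
    rw [div_le_iff₀ hS0]
    nlinarith
  · simp only; positivity
  · simp only
    rw [div_le_iff₀ hS0]
    nlinarith
  · simp only
    have e : (α * S * c.1 + β * S' * c'.1) / (α * S + β * S') * (α * S + β * S') =
      α * S * c.1 + β * S' * c'.1 := div_mul_cancel₀ _ hS0.ne'
    rw [hr1, h6, h6']
    linear_combination -e
  · simp only
    have e : (α * S * c.2 + β * S' * c'.2) / (α * S + β * S') * (α * S + β * S') =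
      α * S * c.2 + β * S' * c'.2 := div_mul_cancel₀ _ hS0.ne'
    rw [hr2, h7, h7']
    linear_combination -e

lemma inGam_sq {M : ℕ} {y q : ℝ × ℝ} (h1 : 0 ≤ q.1) (h2 : q.1 ≤ M) (h3 : 0 ≤ q.2) (h4 : q.2 ≤ M) :
    InGam M y q := ⟨q, 1, h1, h2, h3, h4, le_rfl, by ring, by ring⟩

/-- numerical facts on the parameters. -/
lemma par_facts {M R K : ℕ} (hp : Par M R K) :
    6 ≤ R ∧ 1000 * R ≤ M ∧ 1000000 * M ≤ 2 ^ K ∧ (128 * SQ) * (8 * K + 1) ≤ R := by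
  have h1 := hp.sieve
  have h2 := hp.MR
  have h3 := hp.D
  have hq := SQ_pos
  have hR : 6 ≤ R := by nlinarith
  refine ⟨hR, h2, ?_, h1⟩
  refine le_trans ?_ h3
  have : M ≤ M ^ 10 := Nat.le_self_pow (by norm_num) M
  nlinarith

/-- the last step: the sieve gives a clear unit square. -/
lemma finish {M R K : ℕ} (hp : Par M R K) {y : ℝ × ℝ} (hy : y.2 < 0) {T : ℤ} (hT : 0 < T)
    {N : ℤ} {X : ℤ × ℤ} (hN : 0 < N) (hX : Int.gcd (Int.gcd X.1 X.2) N = 1)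
    (h1 : (X.1 : ℝ) = N * y.1) (h2 : (X.2 : ℝ) = N * y.2) (a b : ℤ) (hb : 3 * T ≤ 4 * b)
    (hh : (∀ c : ℤ, a ≤ c → c ≤ a + R → X.1 - N * c ≠ 0 ∧ |X.1 - N * c| < 2 ^ (8 * K)) ∨
      (∀ c : ℤ, b ≤ c → c ≤ b + R → X.2 - N * c ≠ 0 ∧ |X.2 - N * c| < 2 ^ (8 * K))) :
    ∃ w : ℤ × ℤ, (a ≤ w.1 ∧ w.1 < a + R ∧ b ≤ w.2 ∧ w.2 < b + R) ∧
      ∀ ε₁ ε₂ : ℤ, (ε₁ = 0 ∨ ε₁ = 1) → (ε₂ = 0 ∨ ε₂ = 1) → Clr y T (w.1 + ε₁, w.2 + ε₂) := by
  obtain ⟨w, w1, w2, w3, w4, hw⟩ := SB R (8 * K) hp.sieve N X hX a b hh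
  refine ⟨w, ⟨w1, w2, w3, w4⟩, ?_⟩
  intro ε₁ ε₂ e1 e2
  apply clr_of_gcd hy hN h1 h2 (hw ε₁ ε₂ e1 e2) hT
  simp only
  rcases e2 with rfl | rfl <;> omega

end Pool.Agent.helper43.Clear
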