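import Pool.Agent.helper43.Vis3.Clear

/-!
MP_6b3417_co (frozen S09315), part III.9: a clear unit square, the two cases.
-/

set_option autoImplicit false

namespace Pool.Agent.helper43.Clear

open Pool.Agent.helper47.Vis

lemma big {B : ℝ} (hB : 1000 ≤ B) : 1000 * B ^ 3 ≤ B ^ 8 := by
  have h1 : (1 : ℝ) ≤ B ^ 4 := one_le_pow₀ (by linarith)
  have h2 : (0 : ℝ) < B ^ 3 := by positivity
  have h3 : (1000 : ℝ) ≤ B * B ^ 4 := by nlinarith
  calc 1000 * B ^ 3 ≤ (B * B ^ 4) * B ^ 3 := by nlinarith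
    _ = B ^ 8 := by ring

lemma not_clr {y : ℝ × ℝ} {T : ℤ} {c : ℤ × ℤ} (h : ¬ Clr y T c) :
    ∃ (e : ℤ × ℤ) (l : ℝ), Dir y c e l ∧ 4 * e.2 ≤ T := by
  unfold Clr at h
  push Not at h
  exact h

/-- case `T ≤ 10 D`: rows. -/
lemma caseA {M R K : ℕ} (hp : Par M R K) {y : ℝ × ℝ} (hy : y.2 < 0) {T : ℤ} (hMT : (M : ℤ) ≤ T)
    (hT : (T : ℝ) ≤ 10 * (2 ^ K + M)) (a b : ℤ) (hb : 3 * T ≤ 4 * b) :
    ∃ w : ℤ × ℤ, (a ≤ w.1 ∧ w.1 < a + R ∧ b ≤ w.2 ∧ w.2 < b + R) ∧
      ∀ ε₁ ε₂ : ℤ, (ε₁ = 0 ∨ ε₁ = 1) → (ε₂ = 0 ∨ ε₂ = 1) → Clr y T (w.1 + ε₁, w.2 + ε₂) := by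
  obtain ⟨hR6, hMR, hBM, hsv⟩ := par_facts hp
  have hM6 : 6000 ≤ M := by omega
  have hMT0 : (6000 : ℤ) ≤ T := by omega
  set B : ℝ := 2 ^ K with hB
  have hBM' : 1000000 * (M : ℝ) ≤ B := by rw [hB]; exact_mod_cast hBM
  have hM6' : (6000 : ℝ) ≤ M := by exact_mod_cast hM6
  have hRM' : 1000 * (R : ℝ) ≤ M := by exact_mod_cast hMR
  have hR6' : (6 : ℝ) ≤ R := by exact_mod_cast hR6
  have hT0 : (6000 : ℝ) ≤ T := by exact_mod_cast hMT0
  have hbR : 3 * (T : ℝ) ≤ 4 * b := by exact_mod_cast hb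
  by_cases h : ∃ r : ℤ, (r = b ∨ r = b + 1) ∧ ∃ i j : ℤ, 0 ≤ i ∧ i < j ∧ j ≤ 5 ∧
      ¬ Clr y T (a + i, r) ∧ ¬ Clr y T (a + j, r)
  · obtain ⟨r, hr, i, j, hi, hij, hj, n1, n2⟩ := h
    obtain ⟨e, l, hd, he⟩ := not_clr n1
    obtain ⟨e', l', hd', he'⟩ := not_clr n2
    obtain ⟨hl, e1, e2⟩ := id hd
    obtain ⟨hl', e1', e2'⟩ := id hd'
    simp only at e1 e2 e1' e2'
    have hrR : (b : ℝ) ≤ r := by
      have : b ≤ r := by omega
      exact_mod_cast this
    have hrR2 : (r : ℝ) ≤ b + 1 := by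
      have : r ≤ b + 1 := by omega
      exact_mod_cast this
    have hV : 0 < (r : ℝ) - y.2 := by linarith
    have hm : (0 : ℝ) < (j : ℝ) - i := by
      have : (i : ℝ) < j := by exact_mod_cast hij
      linarith
    have hm5 : (j : ℝ) - i ≤ 5 := by
      have h1 : (j : ℝ) ≤ 5 := by exact_mod_cast hj
      have h2 : (0 : ℝ) ≤ i := by exact_mod_cast hi
      linarith
    have hdet : (((e.1 * e'.2 - e.2 * e'.1 : ℤ)) : ℝ) = - (l * l' * (r - y.2) * (j - i)) := by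
      push_cast
      rw [e1, e2, e1', e2']
      push_cast
      ring
    have hdneg : (((e.1 * e'.2 - e.2 * e'.1 : ℤ)) : ℝ) < 0 := by
      rw [hdet]
      have : 0 < l * l' * (r - y.2) * (j - i) := by positivity
      linarith
    have hdneg' : e.1 * e'.2 - e.2 * e'.1 < 0 := by exact_mod_cast hdneg
    obtain ⟨N, X, hN, hNd, hX, hX1, hX2⟩ := rat_form hd hd' hdneg'.ne
    have hNR : (N : ℝ) ≤ l * l' * (r - y.2) * (j - i) := by
      have h1 : (N : ℝ) ≤ ((|e.1 * e'.2 - e.2 * e'.1| : ℤ) : ℝ) := by exact_mod_cast hNd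
      rw [abs_of_neg hdneg'] at h1
      push_cast at h1 hdet
      linarith
    have heT : (e.2 : ℝ) ≤ T / 4 := by
      have : 4 * (e.2 : ℝ) ≤ T := by exact_mod_cast he
      linarith
    have heT' : (e'.2 : ℝ) ≤ T / 4 := by
      have : 4 * (e'.2 : ℝ) ≤ T := by exact_mod_cast he'
      linarith
    have he0 : 0 < (e.2 : ℝ) := by rw [e2]; positivity
    have he0' : 0 < (e'.2 : ℝ) := by rw [e2']; positivity
    have hee : (e.2 : ℝ) * e'.2 ≤ T / 4 * (T / 4) := by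
      apply mul_le_mul heT heT' he0'.le (by linarith)
    have hNV : (N : ℝ) * (r - y.2) ≤ (T : ℝ) ^ 2 := by
      calc (N : ℝ) * (r - y.2) ≤ (l * l' * (r - y.2) * (j - i)) * (r - y.2) := by
            apply mul_le_mul_of_nonneg_right hNR hV.le
        _ = (j - i) * (e.2 * e'.2) := by rw [e2, e2']; ring
        _ ≤ 5 * (T / 4 * (T / 4)) := by
            apply mul_le_mul hm5 hee (by positivity) (by norm_num)
        _ ≤ (T : ℝ) ^ 2 := by nlinarith
    have hN0 : (0 : ℝ) < N := by exact_mod_cast hN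
    have hN2 : (N : ℝ) ≤ (T : ℝ) ^ 2 := by
      have : (1 : ℝ) ≤ r - y.2 := by linarith
      nlinarith
    have hTB : (T : ℝ) ≤ 20 * B := by linarith
    have hT2 : (T : ℝ) ^ 2 ≤ 400 * B ^ 2 := by
      calc (T : ℝ) ^ 2 ≤ (20 * B) ^ 2 := by
            apply pow_le_pow_left₀ (by linarith) hTB
        _ = 400 * B ^ 2 := by ring
    apply finish hp hy (by omega) hN hX hX1 hX2 a b hb
    right
    intro c hc1 hc2
    have hc1' : (b : ℝ) ≤ c := by exact_mod_cast hc1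
    have hc2' : (c : ℝ) ≤ b + R := by exact_mod_cast hc2
    have hval : ((X.2 - N * c : ℤ) : ℝ) = - (N * (c - y.2)) := by
      push_cast
      rw [hX2]; ring
    have hpos : 0 < (N : ℝ) * (c - y.2) := by
      apply mul_pos hN0
      linarith
    have hle : (N : ℝ) * (c - y.2) < B ^ 8 := by
      have h1 : (N : ℝ) * (c - y.2) = N * (r - y.2) + N * (c - r) := by ring
      have h2 : (N : ℝ) * (c - r) ≤ (T : ℝ) ^ 2 * R := by
        calc (N : ℝ) * (c - r) ≤ N * R := by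
              apply mul_le_mul_of_nonneg_left _ hN0.le
              linarith
          _ ≤ (T : ℝ) ^ 2 * R := by
              apply mul_le_mul_of_nonneg_right hN2 (by linarith)
      have h3 : (N : ℝ) * (c - y.2) ≤ (T : ℝ) ^ 2 * (1 + R) := by
        have e : (T : ℝ) ^ 2 * (1 + R) = T ^ 2 + T ^ 2 * R := by ring
        linarith
      have h4 : (T : ℝ) ^ 2 * (1 + R) ≤ 400 * B ^ 2 * B := by
        apply mul_le_mul hT2 (by linarith) (by linarith) (by positivity)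
      have h5 := big (B := B) (by linarith)
      have h6 : 0 < B ^ 3 := by
        have : 0 < B := by linarith
        positivity
      have h7 : 400 * B ^ 2 * B = 400 * B ^ 3 := by ring
      linarith
    constructor
    · intro h0
      rw [h0] at hval
      push_cast at hval
      linarith
    · have : ((|X.2 - N * c| : ℤ) : ℝ) < ((2 ^ (8 * K) : ℤ) : ℝ) := by
        rw [Int.cast_abs, hval, abs_neg, abs_of_pos hpos]
        push_cast
        have : (2 : ℝ) ^ (8 * K) = B ^ 8 := by rw [hB, ← pow_mul, mul_comm]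
        rw [this]; exact hle
      exact_mod_cast this
  · obtain ⟨k, k0, k4, c1, c2, c3, c4⟩ := two_lines (fun i => ¬ Clr y T (a + i, b))
      (fun i => ¬ Clr y T (a + i, b + 1))
      (fun i j h0 h1 h2 h3 h4 => h ⟨b, Or.inl rfl, i, j, h0, h1, h2, h3, h4⟩)
      (fun i j h0 h1 h2 h3 h4 => h ⟨b + 1, Or.inr rfl, i, j, h0, h1, h2, h3, h4⟩)
    simp only [not_not] at c1 c2 c3 c4
    refine ⟨(a + k, b), ⟨by simp only; omega, by simp only; omega, le_rfl, by simp only; omega⟩, ?_⟩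
    intro ε₁ ε₂ h1 h2
    rcases h1 with rfl | rfl <;> rcases h2 with rfl | rfl
    · simpa using c1
    · simpa using c3
    · simpa [add_assoc] using c2
    · simpa [add_assoc] using c4

/-- in the case `T > 10 D` the short directions have a small first coordinate. -/
lemma slope {M R K : ℕ} (hp : Par M R K) {y : ℝ × ℝ} (hy : y.2 < 0) {t : ℤ × ℤ}
    (hT : 10 * ((2 : ℝ) ^ K + M) < t.2) (ht1 : |(t.1 : ℝ)| ≤ 2 ^ K + M) {w e : ℤ × ℤ} {l : ℝ}
    (hw1 : 3 / 4 * (t.1 : ℝ) ≤ w.1) (hw2 : (w.1 : ℝ) ≤ 3 / 4 * t.1 + M / 4)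
    (hw3 : 3 / 4 * (t.2 : ℝ) ≤ w.2) (hΓ : InGam M y (toR w)) (hd : Dir y w e l)
    (he : 4 * e.2 ≤ t.2) : |(e.1 : ℝ)| ≤ 2 ^ K + M := by
  obtain ⟨hR6, hMR, hBM, hsv⟩ := par_facts hp
  have hM6 : 6000 ≤ M := by omega
  set B : ℝ := 2 ^ K with hB
  have hBM' : 1000000 * (M : ℝ) ≤ B := by rw [hB]; exact_mod_cast hBM
  have hM6' : (6000 : ℝ) ≤ M := by exact_mod_cast hM6
  obtain ⟨c, S, c1, c2, c3, c4, hS, g1, g2⟩ := hΓ
  obtain ⟨hl, e1, e2⟩ := hd
  simp only [toR_fst, toR_snd] at g1 g2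
  set T : ℝ := (t.2 : ℝ) with hTdef
  set D : ℝ := B + M with hD
  have heT : (e.2 : ℝ) ≤ T / 4 := by
    have : 4 * (e.2 : ℝ) ≤ t.2 := by exact_mod_cast he
    linarith
  have he0 : 0 < (e.2 : ℝ) := by
    rw [e2]
    apply mul_pos hl
    linarith
  have key : (e.1 : ℝ) * (w.2 - c.2) = e.2 * (w.1 - c.1) := by
    rw [e1, e2, g1, g2]; ring
  have hden : 3 / 4 * T - M ≤ (w.2 : ℝ) - c.2 := by linarith
  have hDM : (M : ℝ) ≤ D / 1000 := by linarith
  have hden0 : 0 < (w.2 : ℝ) - c.2 := by linarith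
  have hnum : |(w.1 : ℝ) - c.1| ≤ 3 / 4 * D + 5 / 4 * M := by
    rw [abs_le] at ht1 ⊢
    constructor <;> linarith [ht1.1, ht1.2]
  by_contra hcon
  push Not at hcon
  have k1 : |(e.1 : ℝ)| * (w.2 - c.2) = e.2 * |(w.1 : ℝ) - c.1| := by
    have := congrArg abs key
    rw [abs_mul, abs_mul, abs_of_pos hden0, abs_of_pos he0] at this
    exact this
  have k2 : |(e.1 : ℝ)| * (w.2 - c.2) ≤ T / 4 * (3 / 4 * D + 5 / 4 * M) := by
    rw [k1]
    apply mul_le_mul heT hnum (abs_nonneg _) (by linarith)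
  have hD0 : 0 < D := by linarith
  have k3 : D * (3 / 4 * T - M) ≤ |(e.1 : ℝ)| * (w.2 - c.2) := by
    apply mul_le_mul hcon.le hden (by linarith) (abs_nonneg _)
  have k4 : D * (3 / 4 * T - M) ≤ T / 4 * (3 / 4 * D + 5 / 4 * M) := k3.trans k2
  have k5 : D * M ≤ D * (D / 1000) := by
    apply mul_le_mul_of_nonneg_left hDM hD0.le
  have k6 : T * M ≤ T * (D / 1000) := by
    apply mul_le_mul_of_nonneg_left hDM (by linarith)
  have k7 : D * D ≤ D * (T / 10) := by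
    apply mul_le_mul_of_nonneg_left (by linarith) hD0.le
  have k8 : 0 < D * T := by
    apply mul_pos hD0 (by linarith)
  nlinarith

/-- case `T > 10 D`: columns. -/
lemma caseB {M R K : ℕ} (hp : Par M R K) {y : ℝ × ℝ} (hy : y.2 < 0) {t : ℤ × ℤ}
    (hT : 10 * ((2 : ℝ) ^ K + M) < t.2) (ht1 : |(t.1 : ℝ)| ≤ 2 ^ K + M) (a b : ℤ)
    (ha1 : 3 / 4 * (t.1 : ℝ) ≤ a) (ha2 : (a : ℝ) + 3 * R ≤ 3 / 4 * t.1 + M / 4)
    (hb : 3 * t.2 ≤ 4 * b)
    (hΓ : ∀ i j : ℤ, a ≤ i → i ≤ a + 3 * R → b ≤ j → j ≤ b + 3 * R → InGam M y (toR (i, j))) :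
    ∃ w : ℤ × ℤ, (a ≤ w.1 ∧ w.1 < a + 3 * R ∧ b ≤ w.2 ∧ w.2 < b + R) ∧
      ∀ ε₁ ε₂ : ℤ, (ε₁ = 0 ∨ ε₁ = 1) → (ε₂ = 0 ∨ ε₂ = 1) →
        Clr y t.2 (w.1 + ε₁, w.2 + ε₂) := by
  obtain ⟨hR6, hMR, hBM, hsv⟩ := par_facts hp
  have hM6 : 6000 ≤ M := by omega
  set B : ℝ := 2 ^ K with hB
  have hBM' : 1000000 * (M : ℝ) ≤ B := by rw [hB]; exact_mod_cast hBM
  have hM6' : (6000 : ℝ) ≤ M := by exact_mod_cast hM6
  have hRM' : 1000 * (R : ℝ) ≤ M := by exact_mod_cast hMR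
  have hR6' : (6 : ℝ) ≤ R := by exact_mod_cast hR6
  have hbR : 3 * (t.2 : ℝ) ≤ 4 * b := by exact_mod_cast hb
  have hT0 : (0 : ℝ) < t.2 := by linarith
  have hT0' : 0 < t.2 := by exact_mod_cast hT0
  -- choose the columns
  obtain ⟨a', ha'1, ha'2, ha'3⟩ : ∃ a' : ℤ, a ≤ a' ∧ a' + R ≤ a + 3 * R ∧
      ∀ c : ℤ, a' ≤ c → c ≤ a' + R → (c : ℝ) ≠ y.1 := by
    by_cases h : (a : ℝ) ≤ y.1 ∧ y.1 ≤ a + R
    · refine ⟨a + R + 1, by omega, by omega, ?_⟩
      intro c hc1 hc2 hc3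
      have : ((a + R + 1 : ℤ) : ℝ) ≤ c := by exact_mod_cast hc1
      push_cast at this
      linarith [h.2]
    · refine ⟨a, le_rfl, by omega, ?_⟩
      intro c hc1 hc2 hc3
      apply h
      have h1 : (a : ℝ) ≤ c := by exact_mod_cast hc1
      have h2 : (c : ℝ) ≤ a + R := by exact_mod_cast hc2
      rw [← hc3]
      exact ⟨h1, h2⟩
  by_cases h : ∃ r : ℤ, (r = a' ∨ r = a' + 1) ∧ ∃ i j : ℤ, 0 ≤ i ∧ i < j ∧ j ≤ 5 ∧
      ¬ Clr y t.2 (r, b + i) ∧ ¬ Clr y t.2 (r, b + j)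
  · obtain ⟨r, hr, i, j, hi, hij, hj, n1, n2⟩ := h
    obtain ⟨e, l, hd, he⟩ := not_clr n1
    obtain ⟨e', l', hd', he'⟩ := not_clr n2
    have hra : a ≤ r := by omega
    have hra2 : r ≤ a + 3 * R := by omega
    have hrR : (a : ℝ) ≤ r := by exact_mod_cast hra
    have hrR2 : (r : ℝ) ≤ a + 3 * R := by exact_mod_cast hra2
    have hiR : (0 : ℝ) ≤ i := by exact_mod_cast hi
    have hjR : (0 : ℝ) ≤ j := by
      have : 0 ≤ j := by omega
      exact_mod_cast this
    have s1 : |(e.1 : ℝ)| ≤ B + M := by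
      refine slope hp hy hT ht1 (w := (r, b + i)) (by simp only; linarith) (by simp only; linarith)
        (by simp only; push_cast; linarith)
        (hΓ r (b + i) hra hra2 (by omega) (by omega)) hd he
    have s2 : |(e'.1 : ℝ)| ≤ B + M := by
      refine slope hp hy hT ht1 (w := (r, b + j)) (by simp only; linarith) (by simp only; linarith)
        (by simp only; push_cast; linarith)
        (hΓ r (b + j) hra hra2 (by omega) (by omega)) hd' he'
    obtain ⟨hl, e1, e2⟩ := id hd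
    obtain ⟨hl', e1', e2'⟩ := id hd'
    simp only at e1 e2 e1' e2'
    push_cast at e2 e2'
    have hm : (0 : ℝ) < (j : ℝ) - i := by
      have : (i : ℝ) < j := by exact_mod_cast hij
      linarith
    have hm5 : (j : ℝ) - i ≤ 5 := by
      have h1 : (j : ℝ) ≤ 5 := by exact_mod_cast hj
      linarith
    have hry : (r : ℝ) - y.1 ≠ 0 := by
      intro h0
      apply ha'3 r (by omega) (by omega)
      linarith
    have hdet : (((e.1 * e'.2 - e.2 * e'.1 : ℤ)) : ℝ) = l * ((j - i) * e'.1) := by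
      push_cast
      rw [e1, e2, e1', e2']
      ring
    have hl3 : l ≤ 1 / 3 := by
      have h1 : 4 * (e.2 : ℝ) ≤ t.2 := by exact_mod_cast he
      have h2 : l * (3 / 4 * t.2) ≤ e.2 := by
        rw [e2]
        apply mul_le_mul_of_nonneg_left _ hl.le
        linarith
      by_contra hcon
      push Not at hcon
      nlinarith
    have hD0 : 0 < B + M := by linarith
    have habs : |((e.1 * e'.2 - e.2 * e'.1 : ℤ) : ℝ)| ≤ 2 * (B + M) := by
      rw [hdet, abs_mul, abs_mul, abs_of_pos hl, abs_of_pos hm]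
      calc l * ((j - i) * |(e'.1 : ℝ)|) ≤ 1 / 3 * (5 * (B + M)) := by
            apply mul_le_mul hl3 _ (by positivity) (by norm_num)
            apply mul_le_mul hm5 s2 (abs_nonneg _) (by norm_num)
        _ ≤ 2 * (B + M) := by linarith
    have hdy : |((e.1 * e'.2 - e.2 * e'.1 : ℤ) : ℝ)| * |(r : ℝ) - y.1| ≤ 5 * (B + M) ^ 2 := by
      rw [← abs_mul, hdet]
      have h1 : l * ((j - i) * (e'.1 : ℝ)) * (r - y.1) = (j - i) * (e.1 * e'.1) := by
        rw [e1, e1']; ring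
      rw [h1, abs_mul, abs_mul, abs_of_pos hm]
      calc ((j : ℝ) - i) * (|(e.1 : ℝ)| * |(e'.1 : ℝ)|) ≤ 5 * ((B + M) * (B + M)) := by
            apply mul_le_mul hm5 _ (by positivity) (by norm_num)
            apply mul_le_mul s1 s2 (abs_nonneg _) hD0.le
        _ = 5 * (B + M) ^ 2 := by ring
    have hdne : e.1 * e'.2 - e.2 * e'.1 ≠ 0 := by
      have : ((e.1 * e'.2 - e.2 * e'.1 : ℤ) : ℝ) ≠ 0 := by
        rw [hdet, e1']
        exact mul_ne_zero hl.ne' (mul_ne_zero hm.ne' (mul_ne_zero hl'.ne' hry))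
      exact_mod_cast this
    obtain ⟨N, X, hN, hNd, hX, hX1, hX2⟩ := rat_form hd hd' hdne
    have hN0 : (0 : ℝ) < N := by exact_mod_cast hN
    have hNd' : (N : ℝ) ≤ |((e.1 * e'.2 - e.2 * e'.1 : ℤ) : ℝ)| := by
      have h1 : (N : ℝ) ≤ ((|e.1 * e'.2 - e.2 * e'.1| : ℤ) : ℝ) := by exact_mod_cast hNd
      rwa [Int.cast_abs] at h1
    obtain ⟨w, ⟨w1, w2, w3, w4⟩, hw⟩ := finish hp hy hT0' hN hX hX1 hX2 a' b hb (by
      left
      intro c hc1 hc2
      have hval : ((X.1 - N * c : ℤ) : ℝ) = N * (y.1 - c) := by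
        push_cast
        rw [hX1]; ring
      have hcy : (c : ℝ) ≠ y.1 := ha'3 c hc1 hc2
      have hle : |(N : ℝ) * (y.1 - c)| < B ^ 8 := by
        rw [abs_mul, abs_of_pos hN0]
        have h1 : |y.1 - (c : ℝ)| ≤ |(r : ℝ) - y.1| + R := by
          have h2 : |(r : ℝ) - c| ≤ R := by
            rw [abs_le]
            have q1 : r - c ≤ R := by omega
            have q2 : -(R : ℤ) ≤ r - c := by omega
            constructor
            · exact_mod_cast q2
            · exact_mod_cast q1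
          calc |y.1 - (c : ℝ)| = |-((r : ℝ) - y.1) + (r - c)| := by congr 1; ring
            _ ≤ |-((r : ℝ) - y.1)| + |(r : ℝ) - c| := abs_add_le _ _
            _ ≤ |(r : ℝ) - y.1| + R := by rw [abs_neg]; linarith
        have h3 : (N : ℝ) * |y.1 - (c : ℝ)| ≤ N * |(r : ℝ) - y.1| + N * R := by
          calc (N : ℝ) * |y.1 - (c : ℝ)| ≤ N * (|(r : ℝ) - y.1| + R) :=
                mul_le_mul_of_nonneg_left h1 hN0.le
            _ = _ := by ring
        have h4 : (N : ℝ) * |(r : ℝ) - y.1| ≤ 5 * (B + M) ^ 2 :=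
          (mul_le_mul_of_nonneg_right hNd' (abs_nonneg _)).trans hdy
        have h5 : (N : ℝ) * R ≤ 2 * (B + M) * (B + M) := by
          apply mul_le_mul (hNd'.trans habs) (by linarith) (by linarith) (by positivity)
        have h6 : (B + M) ^ 2 ≤ (2 * B) ^ 2 := by
          apply pow_le_pow_left₀ hD0.le
          linarith
        have h7 := big (B := B) (by linarith)
        have hB0 : 0 < B := by linarith
        have h8 : B ^ 2 * 1000 ≤ B ^ 3 := by
          calc B ^ 2 * 1000 ≤ B ^ 2 * B := by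
                apply mul_le_mul_of_nonneg_left _ (by positivity)
                linarith
            _ = B ^ 3 := by ring
        have h9 : (2 * B) ^ 2 = 4 * B ^ 2 := by ring
        have h10 : 2 * (B + M) * (B + M) = 2 * (B + M) ^ 2 := by ring
        have h11 : 0 < B ^ 2 := by positivity
        rw [h9] at h6
        rw [h10] at h5
        linarith
      constructor
      · intro h0
        rw [h0] at hval
        push_cast at hval
        have : y.1 - c = 0 := by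
          rcases mul_eq_zero.mp hval.symm with h | h
          · exact absurd h hN0.ne'
          · exact h
        exact hcy (by linarith)
      · have : ((|X.1 - N * c| : ℤ) : ℝ) < ((2 ^ (8 * K) : ℤ) : ℝ) := by
          rw [Int.cast_abs, hval]
          push_cast
          have : (2 : ℝ) ^ (8 * K) = B ^ 8 := by rw [hB, ← pow_mul, mul_comm]
          rw [this]; exact hle
        exact_mod_cast this)
    exact ⟨w, ⟨by omega, by omega, w3, w4⟩, hw⟩
  · obtain ⟨k, k0, k4, c1, c2, c3, c4⟩ := two_lines (fun i => ¬ Clr y t.2 (a', b + i))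
      (fun i => ¬ Clr y t.2 (a' + 1, b + i))
      (fun i j h0 h1 h2 h3 h4 => h ⟨a', Or.inl rfl, i, j, h0, h1, h2, h3, h4⟩)
      (fun i j h0 h1 h2 h3 h4 => h ⟨a' + 1, Or.inr rfl, i, j, h0, h1, h2, h3, h4⟩)
    simp only [not_not] at c1 c2 c3 c4
    refine ⟨(a', b + k), ⟨by simp only; omega, by simp only; omega, by simp only; omega,
      by simp only; omega⟩, ?_⟩
    intro ε₁ ε₂ h1 h2
    rcases h1 with rfl | rfl <;> rcases h2 with rfl | rfl
    · simpa using c1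
    · simpa [add_assoc] using c2
    · simpa using c3
    · simpa [add_assoc] using c4

end Pool.Agent.helper43.Clear
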