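import Mathlib

/-!
MP_6b3417_co (frozen S09315), part III of the proof of helper88 (/team-store/helper88_vis_proof.md):
a lattice window in a `K_5`-free planar set forces the whole set to be a `good` lattice set.
This file: definitions.
-/

set_option autoImplicit false

namespace Pool.Agent.helper43.Vis3

/-- `p` sees `q` in `P`. -/
def Sees (P : Set (ℝ × ℝ)) (p q : ℝ × ℝ) : Prop :=
  p ≠ q ∧ ∀ r ∈ P, r ∉ openSegment ℝ p q

/-- `P` contains five pairwise seeing points. -/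
def K5 (P : Set (ℝ × ℝ)) : Prop :=
  ∃ f : Fin 5 → ℝ × ℝ, (∀ i, f i ∈ P) ∧ ∀ i j, i ≠ j → Sees P (f i) (f j)

/-- the visibility graph of `P` has a proper colouring with `k` colours. -/
def Col (k : ℕ) (P : Set (ℝ × ℝ)) : Prop :=
  ∃ f : ℝ × ℝ → Fin k, ∀ p ∈ P, ∀ q ∈ P, Sees P p q → f p ≠ f q

/-- the integer lattice in the plane. -/
def emb (a : ℤ × ℤ) : ℝ × ℝ := ((a.1 : ℝ), (a.2 : ℝ))

/-- `c` lies strictly between `a` and `b` (lattice points). -/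
def Btw (a c b : ℤ × ℤ) : Prop := emb c ∈ openSegment ℝ (emb a) (emb b)

/-- same label: congruent modulo `2`. -/
def Same (a b : ℤ × ℤ) : Prop := (2 : ℤ) ∣ a.1 - b.1 ∧ (2 : ℤ) ∣ a.2 - b.2

/-- any two distinct points with the same label have a point of `G` strictly between them. -/
def Good (G : Set (ℤ × ℤ)) : Prop :=
  ∀ a ∈ G, ∀ b ∈ G, a ≠ b → Same a b → ∃ c ∈ G, Btw a c b

/-- the standard window `[0,M]²` is contained in `G`. -/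
def Win (M : ℕ) (G : Set (ℤ × ℤ)) : Prop :=
  ∀ i j : ℤ, 0 ≤ i → i ≤ M → 0 ≤ j → j ≤ M → (i, j) ∈ G

/-- the real square `[0,M]²`. -/
def Sq (M : ℕ) : Set (ℝ × ℝ) := {p | 0 ≤ p.1 ∧ p.1 ≤ M ∧ 0 ≤ p.2 ∧ p.2 ≤ M}

/-- unimodular affine maps of the lattice `c ↦ o + c.1 • u + c.2 • v`. -/
structure UA where
  o : ℤ × ℤ
  u : ℤ × ℤ
  v : ℤ × ℤ
  h : u.1 * v.2 - u.2 * v.1 = 1 ∨ u.1 * v.2 - u.2 * v.1 = -1

/-- action on the lattice. -/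
def UA.map (T : UA) (c : ℤ × ℤ) : ℤ × ℤ :=
  (T.o.1 + c.1 * T.u.1 + c.2 * T.v.1, T.o.2 + c.1 * T.u.2 + c.2 * T.v.2)

/-- action on the plane. -/
def UA.real (T : UA) (p : ℝ × ℝ) : ℝ × ℝ :=
  (T.o.1 + p.1 * T.u.1 + p.2 * T.v.1, T.o.2 + p.1 * T.u.2 + p.2 * T.v.2)

/-- `G` contains a window of size `M` in some basis of the lattice. -/
def HasWin (M : ℕ) (G : Set (ℤ × ℤ)) : Prop := ∃ T : UA, Win M (T.map ⁻¹' G)

/-- `y` is handled (relative to the window `[0,M]²`): one coordinate is at most `M ^ 12`. -/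
def Handled (M : ℕ) (y : ℝ × ℝ) : Prop := |y.1| ≤ (M : ℝ) ^ 12 ∨ |y.2| ≤ (M : ℝ) ^ 12

/-- the vector from `a` to `b` is primitive. -/
def Prim (a b : ℤ × ℤ) : Prop := Int.gcd (b.1 - a.1) (b.2 - a.2) = 1

/-- the corridor from the window `[0,M]²` to `z` at parameter `s`, with margin `μ`:
`f = s z + t` with `t ∈ [μ, (1 - s) M - μ]²`. -/
def Corr (M : ℕ) (s μ : ℝ) (z f : ℤ × ℤ) : Prop :=
  (μ ≤ f.1 - s * z.1 ∧ f.1 - s * z.1 ≤ (1 - s) * M - μ) ∧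
  (μ ≤ f.2 - s * z.2 ∧ f.2 - s * z.2 ≤ (1 - s) * M - μ)

/-- the union of the rays away from `y` starting at points of the square `[0,M]²`. -/
def Gam (M : ℕ) (y : ℝ × ℝ) : Set (ℝ × ℝ) :=
  {q | ∃ c ∈ Sq M, ∃ S : ℝ, 1 ≤ S ∧ q = y + S • (c - y)}

/-- homogeneous coordinates `A (p, 1)`. -/
def Xc (A : Matrix (Fin 3) (Fin 3) ℝ) (p : ℝ × ℝ) : ℝ := A 0 0 * p.1 + A 0 1 * p.2 + A 0 2
def Yc (A : Matrix (Fin 3) (Fin 3) ℝ) (p : ℝ × ℝ) : ℝ := A 1 0 * p.1 + A 1 1 * p.2 + A 1 2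
def Zc (A : Matrix (Fin 3) (Fin 3) ℝ) (p : ℝ × ℝ) : ℝ := A 2 0 * p.1 + A 2 1 * p.2 + A 2 2

/-- the projective map. -/
noncomputable def psi (A : Matrix (Fin 3) (Fin 3) ℝ) (p : ℝ × ℝ) : ℝ × ℝ :=
  (Xc A p / Zc A p, Yc A p / Zc A p)

end Pool.Agent.helper43.Vis3
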